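import Pool.Agent.Helper40.Nil.Stmts3
import Pool.Agent.Helper24.Lin.ALG2c
import Pool.Agent.Helper94.Lin.TRANS
import Pool.Agent.Helper97.Lin.UNB

/-! Module ALG2P: a local field and a representation over it, characteristic `p`. -/

set_option autoImplicit false

open scoped Matrix

namespace Pool.Agent.Helper40.Nil

open Pool.Agent.Helper40.Lin Pool.Agent.Helper24.Lin

universe u

theorem alg2p_scalar {p : ℕ} [Fact p.Prime] {E : Type u} [Field E] [CharP E p] {m : ℕ}
    (hm : 2 ≤ m) (a : Matrix (Fin m) (Fin m) E) (c : E)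
    (h : IsNilpotent (a - Matrix.scalar (Fin m) c)) :
    ∃ k : ℕ, a ^ (p ^ k) = Matrix.scalar (Fin m) (c ^ (p ^ k)) := by
  have : Nonempty (Fin m) := ⟨⟨0, by omega⟩⟩
  have : CharP (Matrix (Fin m) (Fin m) E) p := inferInstance
  obtain ⟨N, hN⟩ := h
  refine ⟨N, ?_⟩
  have hlt : N ≤ p ^ N := (Nat.lt_pow_self (Fact.out : p.Prime).one_lt).le
  have h1 : (a - Matrix.scalar (Fin m) c) ^ (p ^ N) = 0 := pow_eq_zero_of_le hlt hN
  have hcomm : Commute a (Matrix.scalar (Fin m) c) :=
    (Matrix.scalar_commute c (fun r => mul_comm c r) a).symm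
  rw [sub_pow_char_pow_of_commute p N hcomm, sub_eq_zero] at h1
  rw [h1, map_pow]

theorem st_ALG2P (hT : ST_TITSP.{u}) : ST_ALG2P.{u} := by
  classical
  intro p _ E _ _ _ m hm t s h
  -- the field of definition
  let S : Finset E :=
    (((Finset.univ : Finset (Fin m × Fin m)).image fun x => t.1 x.1 x.2) ∪
    ((Finset.univ : Finset (Fin m × Fin m)).image fun x => (t⁻¹ : GL (Fin m) E).1 x.1 x.2)) ∪
    (((Finset.univ : Finset (Fin m × Fin m)).image fun x => s.1 x.1 x.2) ∪
    ((Finset.univ : Finset (Fin m × Fin m)).image fun x => (s⁻¹ : GL (Fin m) E).1 x.1 x.2)) ∪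
    t.1.charpoly.roots.toFinset
  let F : Subfield E := Subfield.closure (S : Set E)
  have hSF : ∀ x ∈ S, x ∈ F := fun x hx => Subfield.subset_closure hx
  have hcharF : CharP F p := F.subtype.charP F.subtype.injective p
  obtain ⟨S', hS'⟩ := alg2_closure S
  obtain ⟨tF, htF⟩ := alg2_lift F t
    (fun i j => hSF _ (by simp only [S, Finset.mem_union, Finset.mem_image]
                          exact Or.inl (Or.inl (Or.inl ⟨(i, j), Finset.mem_univ _, rfl⟩))))
    (fun i j => hSF _ (by simp only [S, Finset.mem_union, Finset.mem_image]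
                          exact Or.inl (Or.inl (Or.inr ⟨(i, j), Finset.mem_univ _, rfl⟩))))
  obtain ⟨sF, hsF⟩ := alg2_lift F s
    (fun i j => hSF _ (by simp only [S, Finset.mem_union, Finset.mem_image]
                          exact Or.inl (Or.inr (Or.inl ⟨(i, j), Finset.mem_univ _, rfl⟩))))
    (fun i j => hSF _ (by simp only [S, Finset.mem_union, Finset.mem_image]
                          exact Or.inl (Or.inr (Or.inr ⟨(i, j), Finset.mem_univ _, rfl⟩))))
  have hroots : ∀ a ∈ t.1.charpoly.roots, a ∈ F := fun a ha => hSF a (by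
    simp only [S, Finset.mem_union]
    exact Or.inr (Multiset.mem_toFinset.2 ha))
  have hmapt : ∀ q : ℕ, ((tF ^ q).1).map F.subtype = (t ^ q).1 := by
    intro q
    rw [← alg2_coe, map_pow, htF]
  have hmaps : ∀ q : ℕ, ((sF ^ q).1).map F.subtype = (s ^ q).1 := by
    intro q
    rw [← alg2_coe, map_pow, hsF]
  -- irreducibility
  have hIrr : ∀ {k : Type} [Field k] (σ : F →+* k) (q : ℕ), 1 ≤ q →
      Irr ((Matrix.GeneralLinearGroup.map σ tF) ^ q) ((Matrix.GeneralLinearGroup.map σ sF) ^ q) := by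
    intro k _ σ q hq
    refine Pool.Agent.Helper94.Lin.FULLIRR m _ _ ?_
    rw [← map_pow, ← map_pow, alg2_coe, alg2_coe]
    refine Pool.Agent.Helper94.Lin.TRANS m F.subtype σ _ _ ?_
    rw [hmapt, hmaps]
    exact h q hq
  have hchar : tF.1.charpoly.map F.subtype = t.1.charpoly := by
    rw [← Matrix.charpoly_map, ← alg2_coe, htF]
  have hrootF : ∀ a (ha : a ∈ t.1.charpoly.roots), tF.1.charpoly.IsRoot ⟨a, hroots a ha⟩ := by
    intro a ha
    have h1 : (t.1.charpoly).IsRoot a := (Polynomial.mem_roots'.1 ha).2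
    rw [← hchar] at h1
    exact Polynomial.IsRoot.of_map (f := F.subtype) (x := ⟨a, hroots a ha⟩) h1 F.subtype.injective
  have hrootk : ∀ {k : Type} [Field k] (σ : F →+* k) (a) (ha : a ∈ t.1.charpoly.roots),
      ((Matrix.GeneralLinearGroup.map σ tF).1).charpoly.IsRoot (σ ⟨a, hroots a ha⟩) := by
    intro k _ σ a ha
    rw [alg2_coe, Matrix.charpoly_map]
    exact (hrootF a ha).map
  have hne0 : ∀ a ∈ t.1.charpoly.roots, a ≠ 0 := by
    rintro a ha rfl
    have h1 : (t.1.charpoly).IsRoot 0 := (Polynomial.mem_roots'.1 ha).2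
    have h2 : t.1.det = 0 := by
      rw [Matrix.det_eq_sign_charpoly_coeff, Polynomial.coeff_zero_eq_eval_zero, h1.eq_zero,
        mul_zero]
    have h3 := Matrix.GeneralLinearGroup.det_ne_zero t
    exact h3 h2
  by_cases hcase : ∃ a ∈ t.1.charpoly.roots, ∃ b ∈ t.1.charpoly.roots,
      ∀ n : ℕ, 1 ≤ n → (a / b) ^ n ≠ 1
  · obtain ⟨a, ha, b, hb, hab⟩ := hcase
    let aF : F := ⟨a, hroots a ha⟩
    let bF : F := ⟨b, hroots b hb⟩
    have haF : aF ≠ 0 := fun h0 => hne0 a ha (congrArg Subtype.val h0)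
    have hbF : bF ≠ 0 := fun h0 => hne0 b hb (congrArg Subtype.val h0)
    obtain ⟨k, i1, i2, σ, hσ⟩ := hT p F S' hS' (aF / bF) (div_ne_zero haF hbF) (by
      intro n hn h0
      exact hab n hn (congrArg Subtype.val h0))
    obtain ⟨ψ, h1, h2⟩ := alg2_psi t s F tF sF htF hsF σ
    refine ⟨k, i1, i2, ψ, ?_, ?_⟩
    · intro q hq
      rw [h1, h2]
      exact hIrr σ q hq
    · rw [h1]
      refine Pool.Agent.Helper97.Lin.UNB1 m _ (σ aF) (σ bF) (hrootk σ a ha) (hrootk σ b hb) ?_
      intro h3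
      refine hσ ?_
      rw [map_div₀, norm_div, h3, div_self]
      rw [norm_ne_zero_iff]
      exact (map_ne_zero σ).2 hbF
  · exfalso
    push Not at hcase
    -- all ratios are roots of unity
    have hne : t.1.charpoly.roots ≠ 0 := by
      intro h0
      have h1 := (IsAlgClosed.splits t.1.charpoly).natDegree_eq_card_roots
      rw [h0, Matrix.charpoly_natDegree_eq_dim, Fintype.card_fin, Multiset.card_zero] at h1
      omega
    obtain ⟨b, hb⟩ := Multiset.exists_mem_of_ne_zero hne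
    have hq : ∃ q : ℕ, 1 ≤ q ∧ ∀ a ∈ t.1.charpoly.roots, a ^ q = b ^ q := by
      have h1 : ∀ s : Multiset E, (∀ a ∈ s, ∃ n : ℕ, 1 ≤ n ∧ (a / b) ^ n = 1) →
          ∃ q : ℕ, 1 ≤ q ∧ ∀ a ∈ s, (a / b) ^ q = 1 := by
        intro s
        induction s using Multiset.induction_on with
        | empty => exact fun _ => ⟨1, le_rfl, fun a ha => absurd ha (Multiset.notMem_zero a)⟩
        | cons a s ih =>
          intro hs
          obtain ⟨q, hq1, hq2⟩ := ih fun c hc => hs c (Multiset.mem_cons_of_mem hc)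
          obtain ⟨n, hn1, hn2⟩ := hs a (Multiset.mem_cons_self a s)
          refine ⟨q * n, Nat.mul_pos hq1 hn1, fun c hc => ?_⟩
          rcases Multiset.mem_cons.1 hc with rfl | hc
          · rw [mul_comm, pow_mul, hn2, one_pow]
          · rw [pow_mul, hq2 c hc, one_pow]
      obtain ⟨q, hq1, hq2⟩ := h1 t.1.charpoly.roots fun a ha => hcase a ha b hb
      refine ⟨q, hq1, fun a ha => ?_⟩
      have h2 := hq2 a ha
      rw [div_pow, div_eq_one_iff_eq (pow_ne_zero _ (hne0 b hb))] at h2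
      exact h2
    obtain ⟨q, hq1, hq2⟩ := hq
    obtain ⟨k, hk⟩ := alg2p_scalar (p := p) hm _ _ (alg2_nil t.1 q (b ^ q) hq2)
    have h3 : (t ^ (q * p ^ k)).1 = Matrix.scalar (Fin m) ((b ^ q) ^ (p ^ k)) := by
      rw [← hk, ← pow_mul]
      rfl
    exact alg2_scalar hm _ _ _ h3
      (h (q * p ^ k) (Nat.mul_pos hq1 (pow_pos (Fact.out : p.Prime).pos k)))

end Pool.Agent.Helper40.Nil
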