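import Pool.Agent.Helper40.Nil.Stmts2

/-! Module MODL: the algebraic dichotomy. -/

set_option autoImplicit false

namespace Pool.Agent.Helper40.Nil

open Polynomial

universe u v

section
variable {M₀ : Type u} [AddCommGroup M₀]

/-- the conclusion -/
def modl_Q (x : Module.End ℤ M₀) (v : M₀) : Prop :=
  ∃ k e : ℕ, 1 ≤ k ∧ (aeval x (((X : Polynomial ℤ) ^ k - 1) ^ e)) v = 0

theorem modl_dvd (k k' : ℕ) : (X : Polynomial ℤ) ^ k - 1 ∣ X ^ (k * k') - 1 := by
  have h := sub_dvd_pow_sub_pow ((X : Polynomial ℤ) ^ k) 1 k'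
  rwa [one_pow, ← pow_mul] at h

theorem modl_comb {x : Module.End ℤ M₀} {v : M₀} {k e : ℕ} (hk : 1 ≤ k)
    (h : modl_Q x ((aeval x (((X : Polynomial ℤ) ^ k - 1) ^ e)) v)) : modl_Q x v := by
  obtain ⟨k', e', hk', h'⟩ := h
  refine ⟨k * k', e + e', Nat.mul_pos hk hk', ?_⟩
  have h1 : ((X : Polynomial ℤ) ^ k - 1) ^ e * (X ^ k' - 1) ^ e' ∣
      (X ^ (k * k') - 1) ^ (e + e') := by
    rw [pow_add]
    refine mul_dvd_mul (pow_dvd_pow_of_dvd (modl_dvd k k') e) (pow_dvd_pow_of_dvd ?_ e')
    rw [mul_comm k k']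
    exact modl_dvd k' k
  obtain ⟨c, hc⟩ := h1
  have h2 : ((X : Polynomial ℤ) ^ (k * k') - 1) ^ (e + e') =
      c * ((X ^ k' - 1) ^ e' * (X ^ k - 1) ^ e) := by
    rw [hc]
    ring
  rw [h2, map_mul, map_mul, Module.End.mul_apply, Module.End.mul_apply, h', map_zero]

/-- the hypothesis in terms of polynomials -/
def modl_H (x : Module.End ℤ M₀) : Prop :=
  ∀ y : M₀, ∀ M : ℕ, 1 ≤ M → y ≠ 0 → ∃ P : Polynomial ℤ, (∀ i, |P.coeff i| ≤ 2) ∧
    (aeval x (expand ℤ M P)) y = 0 ∧ ∃ i, P.coeff i • y ≠ 0

theorem modl_tors {x : Module.End ℤ M₀} (hx : Function.Injective x) (hH : modl_H x) :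
    ∀ N : ℕ, 1 ≤ N → ∀ w : M₀, N • w = 0 → modl_Q x w := by
  intro N
  induction N using Nat.strong_induction_on with
  | _ N ih =>
    intro hN w hw
    by_cases hN1 : N = 1
    · rw [hN1, one_smul] at hw
      exact ⟨1, 0, le_rfl, by rw [hw, map_zero]⟩
    · obtain ⟨p, hp, N1, rfl⟩ := Nat.exists_prime_and_dvd hN1
      have hN10 : 1 ≤ N1 := by
        rcases Nat.eq_zero_or_pos N1 with h | h
        · rw [h, mul_zero] at hN
          omega
        · exact h
      have hlt : N1 < p * N1 := by
        have := hp.two_le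
        nlinarith
      by_cases hu : N1 • w = 0
      · exact ih N1 hlt hN10 w hu
      · set u := N1 • w with hu'
        have hpu : p • u = 0 := by
          rw [hu', smul_smul]
          exact hw
        obtain ⟨P, hP1, hP2, i, hP3⟩ := hH u 1 le_rfl hu
        rw [expand_one] at hP2
        have hdiv : ¬ (p : ℤ) ∣ P.coeff i := by
          rintro ⟨c, hc⟩
          apply hP3
          rw [hc, mul_comm, mul_smul]
          have : (p : ℤ) • u = p • u := by rw [natCast_zsmul]
          rw [this, hpu, smul_zero]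
        have : Fact p.Prime := ⟨hp⟩
        set g : Polynomial (ZMod p) := P.map (Int.castRingHom (ZMod p)) with hg
        have hg0 : g ≠ 0 := by
          intro h
          have h1 : g.coeff i = 0 := by rw [h, coeff_zero]
          rw [hg, coeff_map] at h1
          exact hdiv ((ZMod.intCast_zmod_eq_zero_iff_dvd _ p).1 h1)
        have : Module.Finite (ZMod p) (AdjoinRoot g) := (AdjoinRoot.powerBasis hg0).finite
        have : Finite (AdjoinRoot g) := Module.finite_of_finite (ZMod p)
        obtain ⟨a, b, hab, hab2⟩ := Finite.exists_ne_map_eq_of_infinite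
          (fun j : ℕ => AdjoinRoot.mk g (X ^ j))
        -- symmetric in `a`, `b`
        have key : ∀ a b : ℕ, a < b → AdjoinRoot.mk g (X ^ b) = AdjoinRoot.mk g (X ^ a) →
            modl_Q x w := by
          intro a b hab hab2
          rw [AdjoinRoot.mk_eq_mk] at hab2
          obtain ⟨h', hh'⟩ := hab2
          obtain ⟨h, hh⟩ := Polynomial.map_surjective (Int.castRingHom (ZMod p))
            (ZMod.ringHom_surjective _) h'
          have h1 : ((X : Polynomial ℤ) ^ b - X ^ a - P * h).map (Int.castRingHom (ZMod p)) = 0 := by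
            rw [Polynomial.map_sub, Polynomial.map_sub, Polynomial.map_mul, Polynomial.map_pow,
              Polynomial.map_pow, map_X, hh, ← hg, hh', sub_self]
          have h2 : C (p : ℤ) ∣ (X : Polynomial ℤ) ^ b - X ^ a - P * h := by
            rw [C_dvd_iff_dvd_coeff]
            intro i
            have h3 := congrArg (fun q : Polynomial (ZMod p) => q.coeff i) h1
            simp only [coeff_map, coeff_zero] at h3
            exact (ZMod.intCast_zmod_eq_zero_iff_dvd _ p).1 h3
          obtain ⟨r, hr⟩ := h2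
          have h4 : (X : Polynomial ℤ) ^ b - X ^ a = h * P + r * C (p : ℤ) := by
            linear_combination hr
          have h5 : (aeval x ((X : Polynomial ℤ) ^ b - X ^ a)) u = 0 := by
            rw [h4, map_add, map_mul, map_mul, LinearMap.add_apply, Module.End.mul_apply,
              Module.End.mul_apply, hP2, map_zero, zero_add, aeval_C,
              Module.algebraMap_end_apply, natCast_zsmul, hpu, map_zero]
          have h6 : (X : Polynomial ℤ) ^ b - X ^ a = X ^ a * (X ^ (b - a) - 1) := by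
            rw [mul_sub, ← pow_add, mul_one]
            congr 2
            omega
          have h7 : (aeval x ((X : Polynomial ℤ) ^ (b - a) - 1)) u = 0 := by
            rw [h6, map_mul, Module.End.mul_apply, map_pow, aeval_X] at h5
            have h8 : Function.Injective (x ^ a : Module.End ℤ M₀) := by
              rw [Module.End.coe_pow]
              exact hx.iterate a
            exact h8 (by rw [h5, map_zero])
          refine modl_comb (k := b - a) (e := 1) (by omega) (ih N1 hlt hN10 _ ?_)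
          rw [pow_one, ← map_nsmul]
          exact h7
        rcases Nat.lt_or_gt_of_ne hab with h | h
        · exact key a b h hab2.symm
        · exact key b a h hab2

/-- the ideal of the rational polynomials which kill `v` up to torsion -/
noncomputable def modl_J (x : Module.End ℤ M₀) (v : M₀) : Ideal (Polynomial ℚ) where
  carrier := {P | ∃ N : ℤ, N ≠ 0 ∧ ∃ R : Polynomial ℤ,
    R.map (Int.castRingHom ℚ) = C (N : ℚ) * P ∧ (aeval x R) v = 0}
  zero_mem' := ⟨1, one_ne_zero, 0, by simp, by simp⟩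
  add_mem' := by
    rintro P1 P2 ⟨N1, hN1, R1, h1, h1'⟩ ⟨N2, hN2, R2, h2, h2'⟩
    refine ⟨N1 * N2, mul_ne_zero hN1 hN2, C N2 * R1 + C N1 * R2, ?_, ?_⟩
    · rw [Polynomial.map_add, Polynomial.map_mul, Polynomial.map_mul, h1, h2, map_C, map_C]
      simp only [Int.coe_castRingHom, Int.cast_mul, C_mul]
      ring
    · rw [map_add, map_mul, map_mul, LinearMap.add_apply, Module.End.mul_apply,
        Module.End.mul_apply, h1', h2', map_zero, map_zero, add_zero]
  smul_mem' := by
    rintro c P ⟨N, hN, R, h, h'⟩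
    obtain ⟨b, hb0, hb⟩ := IsLocalization.integerNormalization_spec (nonZeroDivisors ℤ) (S := ℚ) c
    refine ⟨(b : ℤ) * N, mul_ne_zero (nonZeroDivisors.ne_zero hb0) hN,
      IsLocalization.integerNormalization (nonZeroDivisors ℤ) c * R, ?_, ?_⟩
    · have hb' : (IsLocalization.integerNormalization (nonZeroDivisors ℤ) c).map
          (Int.castRingHom ℚ) = C (((b : ℤ) : ℚ)) * c := by
        have h3 : (algebraMap ℤ ℚ) = Int.castRingHom ℚ := rfl
        rw [h3] at hb
        rw [hb, ← Polynomial.smul_eq_C_mul]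
        exact (Int.cast_smul_eq_zsmul ℚ _ _).symm
      rw [Polynomial.map_mul, h, hb', smul_eq_mul, Int.cast_mul, C_mul]
      ring
    · rw [map_mul, Module.End.mul_apply, h', map_zero]

theorem modl_mem_J {x : Module.End ℤ M₀} {v : M₀} {P : Polynomial ℚ} :
    P ∈ modl_J x v ↔ ∃ N : ℤ, N ≠ 0 ∧ ∃ R : Polynomial ℤ,
      R.map (Int.castRingHom ℚ) = C (N : ℚ) * P ∧ (aeval x R) v = 0 := Iff.rfl

theorem modl_mem_J' {x : Module.End ℤ M₀} {v : M₀} {P : Polynomial ℤ} (h : (aeval x P) v = 0) :
    P.map (Int.castRingHom ℚ) ∈ modl_J x v := ⟨1, one_ne_zero, P, by simp, h⟩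

theorem modl_J_X {x : Module.End ℤ M₀} (hx : Function.Injective x) {v : M₀} {g : Polynomial ℚ}
    (h : X * g ∈ modl_J x v) : g ∈ modl_J x v := by
  obtain ⟨N, hN, R, h1, h2⟩ := h
  have h3 : R.coeff 0 = 0 := by
    have h4 := congrArg (fun q : Polynomial ℚ => q.coeff 0) h1
    simp only [coeff_map, mul_coeff_zero, coeff_X_zero, zero_mul, mul_zero] at h4
    exact Int.cast_injective (α := ℚ) (by simpa using h4)
  obtain ⟨R1, rfl⟩ := X_dvd_iff.2 h3
  refine ⟨N, hN, R1, ?_, ?_⟩
  · rw [Polynomial.map_mul, map_X] at h1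
    have h5 : (X : Polynomial ℚ) * R1.map (Int.castRingHom ℚ) = X * (C (N : ℚ) * g) := by
      rw [h1]
      ring
    exact mul_left_cancel₀ X_ne_zero h5
  · rw [map_mul, Module.End.mul_apply, aeval_X] at h2
    exact hx (by rw [h2, map_zero])

/-- a polynomial over `ℂ` whose roots are roots of unity -/
theorem modl_split (s : Multiset ℂ) (h : ∀ l ∈ s, ∃ k : ℕ, 1 ≤ k ∧ l ^ k = 1) :
    ∃ k : ℕ, 1 ≤ k ∧
      (s.map (fun l => (X : Polynomial ℂ) - C l)).prod ∣ (X ^ k - 1) ^ (Multiset.card s) := by
  have h1 : ∃ k : ℕ, 1 ≤ k ∧ ∀ l ∈ s, l ^ k = 1 := by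
    induction s using Multiset.induction with
    | empty => exact ⟨1, le_rfl, by simp⟩
    | cons a s ih =>
      obtain ⟨k, hk, hks⟩ := ih (fun l hl => h l (Multiset.mem_cons_of_mem hl))
      obtain ⟨k', hk', hka⟩ := h a (Multiset.mem_cons_self a s)
      refine ⟨k * k', Nat.mul_pos hk hk', ?_⟩
      intro l hl
      rcases Multiset.mem_cons.1 hl with rfl | hl
      · rw [mul_comm, pow_mul, hka, one_pow]
      · rw [pow_mul, hks l hl, one_pow]
  obtain ⟨k, hk, hks⟩ := h1
  refine ⟨k, hk, ?_⟩
  clear h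
  induction s using Multiset.induction with
  | empty => simp
  | cons a s ih =>
    rw [Multiset.map_cons, Multiset.prod_cons, Multiset.card_cons, pow_succ']
    refine mul_dvd_mul ?_ (ih (fun l hl => hks l (Multiset.mem_cons_of_mem hl)))
    rw [dvd_iff_isRoot]
    simp [hks a (Multiset.mem_cons_self a s)]

theorem modl_main (hRU : ST_RU) {x : Module.End ℤ M₀} (hx : Function.Injective x)
    (hH : modl_H x) (v : M₀) : modl_Q x v := by
  by_cases hv : v = 0
  · exact ⟨1, 0, le_rfl, by rw [hv, map_zero]⟩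
  set f := Submodule.IsPrincipal.generator (modl_J x v) with hf
  have hfJ : ∀ P, P ∈ modl_J x v ↔ f ∣ P := fun P => by
    rw [hf]
    exact Submodule.IsPrincipal.mem_iff_generator_dvd _
  have hfmem : f ∈ modl_J x v := (hfJ f).2 dvd_rfl
  have hf0 : f ≠ 0 := by
    obtain ⟨P, _, hP2, i, hP3⟩ := hH v 1 le_rfl hv
    rw [expand_one] at hP2
    have h1 := (hfJ _).1 (modl_mem_J' hP2)
    intro h
    rw [h, zero_dvd_iff] at h1
    have h2 : P = 0 := Polynomial.map_injective (Int.castRingHom ℚ) Int.cast_injective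
      (by rw [h1, Polynomial.map_zero])
    apply hP3
    rw [h2, coeff_zero, zero_smul]
  have hroot : ∀ l : ℂ, aeval l f = 0 → ∃ k : ℕ, 1 ≤ k ∧ l ^ k = 1 := by
    intro l hl
    have hl0 : l ≠ 0 := by
      rintro rfl
      have h1 : f.coeff 0 = 0 := by
        have h2 : (0 : ℂ) = algebraMap ℚ ℂ 0 := by simp
        rw [h2, aeval_algebraMap_apply] at hl
        have h3 := (algebraMap ℚ ℂ).injective hl
        rw [coe_aeval_eq_eval, ← coeff_zero_eq_eval_zero] at h3
        exact h3
      obtain ⟨g, hg⟩ := X_dvd_iff.2 h1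
      have h3 : g ∈ modl_J x v := modl_J_X hx (by rw [← hg]; exact hfmem)
      obtain ⟨q, hq⟩ := (hfJ g).1 h3
      have h4 : f * 1 = f * (X * q) := by
        rw [mul_one]
        calc f = X * g := hg
          _ = X * (f * q) := by rw [← hq]
          _ = f * (X * q) := by ring
      have h5 := mul_left_cancel₀ hf0 h4
      have h6 := congrArg (fun q : Polynomial ℚ => q.coeff 0) h5
      simp at h6
    refine hRU l hl0 ?_
    intro M hM
    obtain ⟨P, hP1, hP2, i, hP3⟩ := hH v M hM hv
    refine ⟨P, ?_, hP1, ?_⟩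
    · rintro rfl
      apply hP3
      rw [coeff_zero, zero_smul]
    · obtain ⟨q, hq⟩ := (hfJ _).1 (modl_mem_J' hP2)
      have h1 : aeval l ((expand ℤ M P).map (Int.castRingHom ℚ)) = 0 := by
        rw [hq, map_mul, hl, zero_mul]
      have h2 : aeval l ((expand ℤ M P).map (Int.castRingHom ℚ)) = aeval l (expand ℤ M P) := by
        have h3 : Int.castRingHom ℚ = algebraMap ℤ ℚ := rfl
        rw [h3, aeval_map_algebraMap]
      rw [h2, expand_aeval] at h1
      exact h1
  -- divisibility
  obtain ⟨k, hk, hkd⟩ := modl_split ((f.map (algebraMap ℚ ℂ)).roots) (fun l hl => by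
    refine hroot l ?_
    have h1 := isRoot_of_mem_roots hl
    rwa [IsRoot.def, eval_map_algebraMap] at h1)
  set e := Multiset.card ((f.map (algebraMap ℚ ℂ)).roots) with he
  have hsplit : (f.map (algebraMap ℚ ℂ)).Splits := IsAlgClosed.splits _
  have h1 : f.map (algebraMap ℚ ℂ) ∣ (X ^ k - 1) ^ e := by
    have h2 := hsplit.eq_prod_roots
    have h3 : (f.map (algebraMap ℚ ℂ)).leadingCoeff ≠ 0 := by
      rw [Ne, leadingCoeff_eq_zero, Polynomial.map_eq_zero]
      exact hf0
    rw [h2]
    exact (C_mul_dvd h3).2 hkd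
  have h4 : f ∣ (X ^ k - 1) ^ e := by
    rw [← Polynomial.map_dvd_map' (algebraMap ℚ ℂ)]
    simpa using h1
  obtain ⟨N, hN, R, hR1, hR2⟩ := (hfJ _).2 h4
  have hR : R = C N * (X ^ k - 1) ^ e := by
    apply Polynomial.map_injective (Int.castRingHom ℚ) Int.cast_injective
    rw [hR1]
    simp
  rw [hR, map_mul, Module.End.mul_apply, aeval_C, Module.algebraMap_end_apply] at hR2
  refine modl_comb (e := e) hk (modl_tors hx hH N.natAbs (by omega) _ ?_)
  rcases Int.natAbs_eq N with h | h
  · rw [h, natCast_zsmul] at hR2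
    exact hR2
  · rw [h, neg_smul, natCast_zsmul, neg_eq_zero] at hR2
    exact hR2

end

theorem st_MODL (h1 : ST_RU) : ST_MODL.{u} := by
  intro M₀ _ φ hyp v
  let x : Module.End ℤ M₀ := φ.toAddMonoidHom.toIntLinearMap
  have hxa : ∀ y, x y = φ y := fun y => rfl
  have hpow : ∀ (n : ℕ) (y : M₀), (x ^ n) y = φ^[n] y := by
    intro n y
    rw [Module.End.pow_apply]
    rfl
  have hx : Function.Injective x := φ.injective
  have hH : modl_H x := by
    intro y M hM hy
    obtain ⟨n, η, h2, h3, j, h4⟩ := hyp y M hM hy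
    refine ⟨∑ j : Fin n, C (η j) * X ^ (j : ℕ), ?_, ?_, (j : ℕ), ?_⟩
    · intro i
      rw [finsetSum_coeff]
      by_cases hi : i < n
      · rw [Finset.sum_eq_single (⟨i, hi⟩ : Fin n)]
        · simpa using h2 _
        · intro b _ hb
          rw [coeff_C_mul_X_pow, if_neg]
          intro h
          exact hb (Fin.ext h.symm)
        · intro h
          exact absurd (Finset.mem_univ _) h
      · rw [Finset.sum_eq_zero]
        · simp
        · intro b _
          rw [coeff_C_mul_X_pow, if_neg]
          intro h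
          exact hi (h ▸ b.2)
    · rw [map_sum, map_sum, LinearMap.sum_apply, ← h3]
      refine Finset.sum_congr rfl (fun j _ => ?_)
      rw [map_mul, expand_C, map_pow, expand_X, map_mul, Module.End.mul_apply, aeval_C,
        Module.algebraMap_end_apply, map_pow, map_pow, aeval_X, ← pow_mul, hpow, mul_comm M]
    · rw [finsetSum_coeff, Finset.sum_eq_single j]
      · rw [coeff_C_mul_X_pow, if_pos rfl]
        intro h
        apply h4
        rw [← hpow, ← map_zsmul, h, map_zero]
      · intro b _ hb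
        rw [coeff_C_mul_X_pow, if_neg]
        intro h
        exact hb (Fin.ext h.symm)
      · intro h
        exact absurd (Finset.mem_univ _) h
  obtain ⟨k, e, hk, hke⟩ := modl_main h1 hx hH v
  refine ⟨k, e, hk, ?_⟩
  have h5 : (fun y => φ^[k] y - y) = ⇑(aeval x ((X : Polynomial ℤ) ^ k - 1)) := by
    funext y
    rw [map_sub, map_pow, aeval_X, map_one, LinearMap.sub_apply, hpow, Module.End.one_apply]
  rw [h5, ← Module.End.pow_apply, ← map_pow]
  exact hke

end Pool.Agent.Helper40.Nil
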